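import Pool.Agent.U372.HX.Step2
import Pool.Agent.TH508.LT.Fin2
import Pool.Agent.H982R3.Plain
import Pool.Agent.H978R2.Hex.Lower
import Pool.Agent.H978R2.Hex.Conn

/-!
# Near contacts of the self-avoiding walk on the honeycomb lattice

Simultaneously for all distances, times and lags: exponential tails for the number of the vertices of
the future close to the past and for the number of close pairs of vertices with a large lag.
-/

set_option autoImplicit false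

namespace Pool.Agent.Results.MP_b440f6_pr.NearContactTails

/-- Adjacency in the honeycomb lattice (brick-wall model), as in the frozen statement. -/
def Nbr (p q : ℤ × ℤ) : Prop :=
  (p.2 = q.2 ∧ (p.1 - q.1 = 1 ∨ q.1 - p.1 = 1)) ∨
    (p.1 = q.1 ∧ ((q.2 = p.2 + 1 ∧ Even (p.1 + p.2)) ∨ (p.2 = q.2 + 1 ∧ Even (q.1 + q.2))))

/-- The set of `n`-step self-avoiding walks from the origin. -/
def walks (n : ℕ) : Set (Fin (n + 1) → ℤ × ℤ) :=
  {ω | ω 0 = (0, 0) ∧ Function.Injective ω ∧ ∀ i : Fin n, Nbr (ω i.castSucc) (ω i.succ)}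

/-- The probability that the `n`-step self-avoiding walk has property `A`. -/
noncomputable def prob (n : ℕ) (A : (Fin (n + 1) → ℤ × ℤ) → Prop) : ℝ :=
  ({ω | ω ∈ walks n ∧ A ω}.ncard : ℝ) / ((walks n).ncard : ℝ)

/-- The vertices at graph distance at most `k` from the set `A`. -/
def ball (A : Set (ℤ × ℤ)) : ℕ → Set (ℤ × ℤ)
  | 0 => A
  | k + 1 => {v | v ∈ ball A k ∨ ∃ u ∈ ball A k, Nbr u v}

/-- The number of the times `j ≥ t` at which the walk is at graph distance at most `k` from the set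
of the sites which it has visited before time `t`. -/
noncomputable def returns {n : ℕ} (ω : Fin (n + 1) → ℤ × ℤ) (k t : ℕ) : ℕ :=
  {j : Fin (n + 1) | t ≤ (j : ℕ) ∧
    ω j ∈ ball {u | ∃ i : Fin (n + 1), (i : ℕ) < t ∧ u = ω i} k}.ncard

/-- The number of the pairs of times `i`, `j` with `j ≥ i + m` at which the walk is at two sites with
graph distance at most `k`. -/
noncomputable def pairs {n : ℕ} (ω : Fin (n + 1) → ℤ × ℤ) (k m : ℕ) : ℕ :=
  {q : Fin (n + 1) × Fin (n + 1) | (q.1 : ℕ) + m ≤ (q.2 : ℕ) ∧ ω q.2 ∈ ball {ω q.1} k}.ncard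

/-- the adjacency relation of the library -/
def Adj0 (p q : ℤ × ℤ) : Prop :=
  q - p = (1, 0) ∨ q - p = (-1, 0) ∨
    (q - p = (0, 1) ∧ Even (p.1 + p.2)) ∨ (q - p = (0, -1) ∧ Even (q.1 + q.2))

theorem nbr_iff (p q : ℤ × ℤ) : Nbr p q ↔ Adj0 p q := Pool.Agent.U372.HX.adj_iff p q

theorem walks_eq (n : ℕ) : walks n = H978R2.Hex.saws n := by
  ext f
  unfold walks H978R2.Hex.saws
  simp only [Set.mem_ofPred_eq]
  constructor
  · rintro ⟨h1, h2, h3⟩
    exact ⟨h1, h2, fun i => (nbr_iff _ _).1 (h3 i)⟩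
  · rintro ⟨h1, h2, h3⟩
    exact ⟨h1, h2, fun i => (nbr_iff _ _).2 (h3 i)⟩

/-- the bounds for a graph which has coordinates in one of the word models -/
theorem bounds [L : H982.Lat] {Adj : ℤ × ℤ → ℤ × ℤ → Prop} {φ : ℤ × ℤ → ℤ × ℤ}
    {R : ℕ → ℤ × ℤ → Prop} (H : H982.Coord Adj φ R) (a : ℕ → ℕ)
    (ha : ∀ n : ℕ, a n = Set.ncard {f : Fin (n + 1) → ℤ × ℤ |
            f 0 = 0 ∧ Function.Injective f ∧
            ∀ i : Fin n, Adj (f i.castSucc) (f i.succ)}) (μ : ℝ)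
    (hμ : μ = (⨅ n : {n : ℕ // 1 ≤ n}, ((a n.1 : ℝ) ^ ((1 : ℝ) / (n.1 : ℝ))))) :
    ∃ K : ℝ, 0 ≤ K ∧ ∀ n : ℕ, 2 ≤ n → (a n : ℝ) ≤ μ ^ n * Real.exp (K * (Real.log n) ^ 2) := by
  have ha' : ∀ n, a n = (H982.walks Adj n).ncard := ha
  have hμ' : μ = H982.mu := by
    rw [hμ, ← H982.mu_eq_iInf H]
    congr 1
    funext n
    rw [ha']
  obtain ⟨K, hK0, hK⟩ := Pool.Agent.TH508.LT.cr'_upper2
  refine ⟨K, hK0, fun n hn => ?_⟩
  rw [hμ', ha', H982.ncard_walks H]
  exact hK n hn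

/-- the connective constant equals `√(2+√2)` -/
theorem mu_eq : (⨅ n : {n : ℕ // 1 ≤ n},
    (((H978R2.Hex.saws n.1).ncard : ℝ) ^ ((1 : ℝ) / (n.1 : ℝ)))) = H978R2.Hex.mu0 := by
  refine le_antisymm H978R2.Hex.connective_le ?_
  have : Nonempty {n : ℕ // 1 ≤ n} := ⟨⟨1, le_refl 1⟩⟩
  refine le_ciInf fun n => ?_
  have h1 := H978R2.Hex.saws_ge n.1
  have h3 : (H978R2.Hex.mu0 ^ n.1) ^ ((1 : ℝ) / (n.1 : ℝ)) ≤
      (Set.ncard (H978R2.Hex.saws n.1) : ℝ) ^ ((1 : ℝ) / (n.1 : ℝ)) :=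
    Real.rpow_le_rpow (pow_pos H978R2.Hex.mu0_pos _).le h1 (by positivity)
  have hn : n.1 ≠ 0 := by
    have := n.2
    omega
  rwa [one_div, Real.pow_rpow_inv_natCast H978R2.Hex.mu0_pos.le hn, ← one_div] at h3

theorem upper : ∃ K : ℝ, 0 ≤ K ∧ ∀ n : ℕ, 2 ≤ n →
    ((H978R2.Hex.saws n).ncard : ℝ) ≤ H978R2.Hex.mu0 ^ n * Real.exp (K * Real.log n ^ 2) :=
  bounds (L := H982P.hexL) H982P.coord_hex (fun n => (H978R2.Hex.saws n).ncard)
    (fun n => rfl) _ mu_eq.symm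

theorem ball_eq (A : Set (ℤ × ℤ)) (k : ℕ) : ball A k = Pool.Agent.U372.HX.Nr A k := by
  induction k with
  | zero => rfl
  | succ k ih =>
    ext v
    show (v ∈ ball A k ∨ ∃ u ∈ ball A k, Nbr u v) ↔
      (v ∈ Pool.Agent.U372.HX.Nr A k ∨ ∃ u ∈ Pool.Agent.U372.HX.Nr A k, Nbr u v)
    rw [ih]

open Classical in
theorem returns_eq {n : ℕ} (ω : Fin (n + 1) → ℤ × ℤ) (k t : ℕ) :
    returns ω k t = Pool.Agent.U372.HX.con ω k t := by
  unfold returns Pool.Agent.U372.HX.con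
  rw [← Set.ncard_coe_finset]
  congr 1
  ext j
  simp only [Set.mem_ofPred_eq, Finset.coe_filter, Finset.mem_univ, true_and, ball_eq]

open Classical in
theorem pairs_eq {n : ℕ} (ω : Fin (n + 1) → ℤ × ℤ) (k m : ℕ) :
    pairs ω k m = Pool.Agent.U372.HX.prs ω k m := by
  unfold pairs Pool.Agent.U372.HX.prs
  rw [← Set.ncard_coe_finset]
  congr 1
  ext j
  simp only [Set.mem_ofPred_eq, Finset.coe_filter, Finset.mem_univ, true_and, ball_eq]

/-- **Theorem.** On the honeycomb lattice there is `K ≥ 1` such that for all `n ≥ 2` and `x ≥ 0` the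
uniform `n`-step self-avoiding walk has the following properties with probability at least
`1 - exp (-x)`, for all distances `k` at once: (1) for every time `t` the walk is, from time `t` on, at
most `K ^ (k + 1) ((log n)^2 + x)` times at distance at most `k` from its past before `t`; (2) for
every `m ≥ 1` there are at most `K ^ (k + 1) (n / m) ((log n)^2 + x)` pairs of times with difference at
least `m` at which the walk is at sites with distance at most `k`. -/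
theorem result : ∃ K : ℝ, 1 ≤ K ∧ ∀ n : ℕ, 2 ≤ n → ∀ x : ℝ, 0 ≤ x →
    prob n (fun ω => ¬ ∀ k : ℕ,
      (∀ t : ℕ, (returns ω k t : ℝ) ≤ K ^ (k + 1) * (Real.log n ^ 2 + x)) ∧
      ∀ m : ℕ, 1 ≤ m → (pairs ω k m : ℝ) ≤ K ^ (k + 1) * (n / m) * (Real.log n ^ 2 + x)) ≤
      Real.exp (-x) := by
  obtain ⟨K₀, hK₀, hup⟩ := upper
  obtain ⟨K, hK, h⟩ := Pool.Agent.U372.HX.steps_all H978R2.Hex.mu0_pos hK₀
    H978R2.Hex.saws_ge hup
  refine ⟨K, hK, fun n hn x hx => ?_⟩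
  unfold prob
  rw [walks_eq, div_le_iff₀ (H978R2.Hex.saws_pos n)]
  simp only [returns_eq, pairs_eq]
  exact h n hn x hx

end Pool.Agent.Results.MP_b440f6_pr.NearContactTails
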