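import Pool.Agent.U954.GE.Pla

/-!
Self-avoiding walk on the honeycomb lattice with a fixed number `n` of steps: regularity to all
orders, in the times, of the laws of the pieces and of the moments of the displacements inside the
walk (in particular the mean-square displacement).
-/

set_option autoImplicit false

open scoped Classical

namespace Pool.Agent.Results.MP_b440f6_pr.SegmentsAllOrders

/-- Adjacency in the honeycomb lattice (brick-wall model), as in the frozen statement. -/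
def Nbr (p q : ℤ × ℤ) : Prop :=
  (p.2 = q.2 ∧ (p.1 - q.1 = 1 ∨ q.1 - p.1 = 1)) ∨
    (p.1 = q.1 ∧ ((q.2 = p.2 + 1 ∧ Even (p.1 + p.2)) ∨ (p.2 = q.2 + 1 ∧ Even (q.1 + q.2))))

/-- The set of `n`-step self-avoiding walks from the origin. -/
def walks (n : ℕ) : Set (Fin (n + 1) → ℤ × ℤ) :=
  {ω | ω 0 = (0, 0) ∧ Function.Injective ω ∧ ∀ i : Fin n, Nbr (ω i.castSucc) (ω i.succ)}

/-- The vertex of the regular honeycomb lattice with edge length `1` in the plane, the origin at `0`,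
which has the brick-wall coordinates `p`. -/
noncomputable def pos (p : ℤ × ℤ) : ℂ :=
  ⟨√3 / 2 * p.1, (3 * p.2 - ((p.1 + p.2) % 2 : ℤ)) / 2⟩

/-- The mean of `F` over the `n`-step self-avoiding walks started at the origin. -/
noncomputable def mean (n : ℕ) (F : (Fin (n + 1) → ℤ × ℤ) → ℝ) : ℝ :=
  (∑ᶠ ω ∈ walks n, F ω) / ((walks n).ncard : ℝ)

/-- The piece `(ω(i), ω(i+1), …, ω(i+m))` of the walk (used only when `i + m ≤ n`). -/
def piece {n : ℕ} (i m : ℕ) (ω : Fin (n + 1) → ℤ × ℤ) : Fin (m + 1) → ℤ × ℤ :=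
  fun j => ω (Fin.ofNat (n + 1) (i + j))

/-- The first `a` steps, the piece with `m` steps started at time `s`, and the last `b` steps of the
walk; all of them are given by the positions of the walk. -/
def parts {n : ℕ} (a m b s : ℕ) (ω : Fin (n + 1) → ℤ × ℤ) :
    (Fin (a + 1) → ℤ × ℤ) × (Fin (m + 1) → ℤ × ℤ) × (Fin (b + 1) → ℤ × ℤ) :=
  (piece 0 a ω, piece s m ω, piece (n - b) b ω)

/-- The mean of `|ω(t) - ω(s)|^θ` over the `n`-step self-avoiding walks (`s, t ≤ n`); the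
mean-square displacement if `θ = 2`. -/
noncomputable def moment (θ : ℝ) (n s t : ℕ) : ℝ :=
  mean n (fun ω => ‖pos (ω (Fin.ofNat (n + 1) t)) - pos (ω (Fin.ofNat (n + 1) s))‖ ^ θ)

/-- The `r`-th difference `∑ (-1)^i C(r, i) f(i)` of a sequence. -/
noncomputable def diff (r : ℕ) (f : ℕ → ℝ) : ℝ :=
  ∑ i ∈ Finset.range (r + 1), (-1 : ℝ) ^ i * (r.choose i : ℝ) * f i

section aux

open Pool.Agent.U954.GE Pool.Agent.N929.EG Pool.Agent.N169.EG

theorem nbr_eq : Nbr = TH966.AK.Hex.A := by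
  funext p q
  refine propext ?_
  rw [TH966.AK.Hex.A_iff]
  unfold Nbr
  rw [Int.even_iff, Int.even_iff]
  omega

theorem cla : Cla X2 TH966.AK.Hex.A Set.univ walks := by
  intro n ω
  unfold walks IsF
  rw [nbr_eq]
  constructor
  · rintro ⟨h1, h2, h3⟩
    exact ⟨⟨h1, h3, h2⟩, fun _ => Set.mem_univ _⟩
  · rintro ⟨⟨h1, h2, h3⟩, -⟩
    exact ⟨h1, h3, h2⟩

theorem sq_dist (p q : ℤ × ℤ) : ‖pos p - pos q‖ ^ 2 =
    ((3 * (p.1 - q.1) ^ 2 + (3 * (p.2 - q.2) - ((p.1 + p.2) % 2 - (q.1 + q.2) % 2)) ^ 2 : ℤ) : ℝ)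
      / 4 := by
  rw [Complex.sq_norm]
  unfold pos
  have e0 : ∀ a b c d : ℝ, (⟨a, b⟩ : ℂ) - ⟨c, d⟩ = ⟨a - c, b - d⟩ := fun a b c d => rfl
  rw [e0, Complex.normSq_mk]
  have h : √3 * √3 = (3 : ℝ) := Real.mul_self_sqrt (by norm_num)
  push_cast
  have e : (√3 / 2 * (p.1 : ℝ) - √3 / 2 * (q.1 : ℝ)) * (√3 / 2 * (p.1 : ℝ) - √3 / 2 * (q.1 : ℝ)) =
      √3 * √3 * ((p.1 : ℝ) - q.1) ^ 2 / 4 := by ring
  rw [e, h]
  ring

theorem four_le (p q : ℤ × ℤ) (h : p ≠ q) :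
    4 ≤ 3 * (p.1 - q.1) ^ 2 + (3 * (p.2 - q.2) - ((p.1 + p.2) % 2 - (q.1 + q.2) % 2)) ^ 2 := by
  have hne : p.1 ≠ q.1 ∨ p.2 ≠ q.2 := by
    by_contra hcon
    push Not at hcon
    exact h (Prod.ext hcon.1 hcon.2)
  obtain ⟨x, hx⟩ : ∃ x, x = p.1 - q.1 := ⟨_, rfl⟩
  obtain ⟨y, hy⟩ : ∃ y, y = 3 * (p.2 - q.2) - ((p.1 + p.2) % 2 - (q.1 + q.2) % 2) := ⟨_, rfl⟩
  rw [← hx, ← hy]
  rcases lt_trichotomy x 0 with h1 | h1 | h1
  · rcases (show x = -1 ∨ x ≤ -2 by omega) with h2 | h2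
    · have h3 : y ≠ 0 := by omega
      have h4 : 0 < y ^ 2 := by positivity
      rw [h2]
      omega
    · nlinarith [sq_nonneg y]
  · have h3 : 2 ≤ y ∨ y ≤ -2 := by omega
    rw [h1]
    rcases h3 with h3 | h3 <;> nlinarith
  · rcases (show x = 1 ∨ 2 ≤ x by omega) with h2 | h2
    · have h3 : y ≠ 0 := by omega
      have h4 : 0 < y ^ 2 := by positivity
      rw [h2]
      omega
    · nlinarith [sq_nonneg y]

/-- the norm of the difference of two positions of a self-avoiding walk -/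
theorem norm_bd {n : ℕ} (hn : 2 ≤ n) {w : List (ℤ × ℤ)}
    (hw : w ∈ Kw X2 TH966.AK.Hex.A n) {s t : ℕ} (hs : s ≤ n) (ht : t ≤ n) (hst : s ≠ t) :
    1 ≤ ‖pos (vx X2 w t) - pos (vx X2 w s)‖ ∧
      ‖pos (vx X2 w t) - pos (vx X2 w s)‖ ≤ (n : ℝ) ^ 3 := by
  have a1 := vx_box hw RH ht
  have a2 := vx_box hw RH hs
  have hne : vx X2 w t ≠ vx X2 w s := fun h => hst (vx_inj hw RH ht hs h).symm
  obtain ⟨p, hp⟩ : ∃ p : ℤ × ℤ, p = vx X2 w t := ⟨_, rfl⟩
  obtain ⟨q, hq⟩ : ∃ q : ℤ × ℤ, q = vx X2 w s := ⟨_, rfl⟩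
  rw [← hp] at a1
  rw [← hq] at a2
  rw [← hp, ← hq] at hne ⊢
  have a1' := TH966.AK.mem_box.mp a1
  have a2' := TH966.AK.mem_box.mp a2
  have o1 : (X2.o : ℤ × ℤ).1 = 0 := rfl
  have o2 : (X2.o : ℤ × ℤ).2 = 0 := rfl
  rw [o1, o2, zero_sub, zero_sub, abs_neg, abs_neg, abs_le, abs_le] at a1' a2'
  have h4 := four_le p q hne
  have hsq := sq_dist p q
  have hx : (p.1 - q.1) ^ 2 ≤ (2 * n) ^ 2 := sq_le_sq' (by omega) (by omega)
  have hy : (3 * (p.2 - q.2) - ((p.1 + p.2) % 2 - (q.1 + q.2) % 2)) ^ 2 ≤ (6 * n + 1) ^ 2 :=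
    sq_le_sq' (by omega) (by omega)
  have hn' : (2 : ℝ) ≤ n := by exact_mod_cast hn
  obtain ⟨Q, hQ⟩ : ∃ Q : ℤ, Q = 3 * (p.1 - q.1) ^ 2 +
    (3 * (p.2 - q.2) - ((p.1 + p.2) % 2 - (q.1 + q.2) % 2)) ^ 2 := ⟨_, rfl⟩
  rw [← hQ] at h4 hsq
  have hQ2 : Q ≤ 61 * (n : ℤ) ^ 2 := by
    have : (2 : ℤ) ≤ n := by exact_mod_cast hn
    nlinarith
  have h4' : (4 : ℝ) ≤ Q := by exact_mod_cast h4
  have hQ2' : (Q : ℝ) ≤ 61 * (n : ℝ) ^ 2 := by exact_mod_cast hQ2
  constructor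
  · have : (1 : ℝ) ^ 2 ≤ ‖pos p - pos q‖ ^ 2 := by rw [hsq]; linarith
    exact (abs_le_of_sq_le_sq' this (norm_nonneg _)).2
  · have h5 : ‖pos p - pos q‖ ^ 2 ≤ ((n : ℝ) ^ 3) ^ 2 := by
      rw [hsq]
      have h16 : (16 : ℝ) ≤ (n : ℝ) ^ 4 := by
        have h2 : (4 : ℝ) ≤ (n : ℝ) ^ 2 := by nlinarith
        nlinarith
      nlinarith [sq_nonneg (n : ℝ)]
    exact (abs_le_of_sq_le_sq' h5 (by positivity)).2

theorem sqrt_mono {C C' x : ℝ} (r : ℕ) (h : C ≤ C') : C * Real.sqrt x ^ r ≤ C' * Real.sqrt x ^ r :=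
  mul_le_mul_of_nonneg_right h (by positivity)

end aux

/-- **Theorem.** Consider the uniform self-avoiding walk `ω` on the honeycomb lattice with `n`
steps, `n` fixed.

(1) For every `r ≥ 1` there is `C` such that the following holds. Let `Φ`, with values in `[0, 1]`,
be a function of the first `a` steps, of the piece with `m` steps started at time `s`, and of the
last `b` steps, let `E(s)` be its mean, and let `L ≥ log n`, `E(s) ≥ e^(-L)`. If `[a, s]` and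
`[s + m, n - b]` have lengths at least `g ≥ C ((log n)² + L)`, then `E(s + 2 i) > 0` for `i ≤ r`, and
the `r`-th difference of `log E` as a function of the time `s` (with step `2`) is at most
`C (L / g)^(r/2)`.

(2) For every real `θ` and every `r ≥ 1` there is `C` such that the `r`-th differences (with step
`2`) of `log ⟨|ω(t) - ω(s)|^θ⟩` (the mean-square displacement if `θ = 2`) are at most
`C (log n / g)^(r/2)` for `g ≥ C (log n)²`: as a function of `t` if `g ≤ t - s` and `g ≤ n - t`, as a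
function of `s` if `g ≤ s` and `g ≤ t - s`, and if `s` and `t` are shifted together, for every value
of `t - s > 0`, if `g ≤ s` and `g ≤ n - t`. -/
theorem result :
    (∀ r : ℕ, 1 ≤ r → ∃ C : ℝ, 0 < C ∧ ∀ (n a m b s g : ℕ)
      (Φ : (Fin (a + 1) → ℤ × ℤ) × (Fin (m + 1) → ℤ × ℤ) × (Fin (b + 1) → ℤ × ℤ) → ℝ) (L : ℝ),
      2 ≤ n → (∀ x, 0 ≤ Φ x ∧ Φ x ≤ 1) → Real.log n ≤ L →
      Real.exp (-L) ≤ mean n (fun ω => Φ (parts a m b s ω)) →
      a + g ≤ s → s + m + g + b ≤ n → C * (Real.log n ^ 2 + L) ≤ g →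
      (∀ i, i ≤ r → 0 < mean n (fun ω => Φ (parts a m b (s + 2 * i) ω))) ∧
      |diff r (fun i => Real.log (mean n (fun ω => Φ (parts a m b (s + 2 * i) ω))))| ≤
        C * Real.sqrt (L / g) ^ r) ∧
    (∀ (θ : ℝ) (r : ℕ), 1 ≤ r → ∃ C : ℝ, 0 < C ∧ ∀ n s t g : ℕ, 2 ≤ n → s < t →
      C * Real.log n ^ 2 ≤ g →
      (s + g ≤ t → t + g ≤ n →
        |diff r (fun i => Real.log (moment θ n s (t + 2 * i)))| ≤
          C * Real.sqrt (Real.log n / g) ^ r) ∧
      (g ≤ s → s + g ≤ t → t ≤ n →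
        |diff r (fun i => Real.log (moment θ n (s + 2 * i) t))| ≤
          C * Real.sqrt (Real.log n / g) ^ r) ∧
      (g ≤ s → t + g ≤ n →
        |diff r (fun i => Real.log (moment θ n (s + 2 * i) (t + 2 * i)))| ≤
          C * Real.sqrt (Real.log n / g) ^ r)) := by
  open Pool.Agent.U954.GE Pool.Agent.N929.EG in
  obtain ⟨K₁, hK₁, ⟨D⟩⟩ := datH
  have hK0 : 0 < K₁ := by linarith
  refine ⟨fun r hr => ?_, fun θ r hr => ?_⟩
  · obtain ⟨C, hC, h⟩ := general D cla 0 (Or.inr rfl) r hr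
    refine ⟨C * K₁, by positivity, fun n a m b s g Φ L hn hΦ hL hm has hsn hg => ?_⟩
    have hL0 : 0 ≤ L := (Real.log_natCast_nonneg n).trans hL
    have hT : ∀ s, TopMean (α := ℕ) (k := 0) walks (fun _ _ => 0) n a m b s Φ =
        mean n (fun ω => Φ (parts a m b s ω)) := by
      intro s
      unfold TopMean
      have e : (fun ω : Fin (n + 1) → ℤ × ℤ =>
          if Pool.Agent.U954.GE.TopsIn (α := ℕ) (k := 0) (fun _ _ => 0) a m b s ω then
          Φ (Pool.Agent.U954.GE.parts a m b s ω) else 0) = fun ω => Φ (parts a m b s ω) := by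
        funext ω
        exact if_pos (fun i => i.elim0)
      rw [e]
      rfl
    obtain ⟨-, h1, h2⟩ := h ℕ inferInstance (fun _ _ => 0) (fun i => i.elim0) n a m b s g Φ L hn hΦ
      hL (by rw [hT]; exact hm) has hsn (by
        refine le_trans ?_ hg
        rw [mul_assoc]
        refine mul_le_mul_of_nonneg_left ?_ hC.le
        have h2 : L ≤ K₁ * L := le_mul_of_one_le_left hL0 (by linarith)
        rw [mul_add]
        linarith)
    simp only [hT] at h1 h2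
    exact ⟨h1, h2.trans (sqrt_mono r (le_mul_of_one_le_right hC.le (by linarith)))⟩
  · obtain ⟨C, hC, h⟩ := dist D cla (fun x y => ‖pos y - pos x‖)
      (fun n hn w hw s t hs ht hst => norm_bd hn hw hs ht hst) θ r hr
    refine ⟨C * (K₁ + 2), by positivity, fun n s t g hn hst hg => ?_⟩
    obtain ⟨h1, h2, h3⟩ := h n s t g hn hst (by
      refine le_trans ?_ hg
      rw [mul_assoc]
      refine mul_le_mul_of_nonneg_left ?_ hC.le
      have h4 : (0.69 : ℝ) ≤ Real.log n := by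
        have h5 : Real.log 2 ≤ Real.log n :=
          Real.log_le_log (by norm_num) (by exact_mod_cast hn)
        have := Real.log_two_gt_d9
        linarith
      have h6 : Real.log n ≤ 2 * Real.log n ^ 2 := by nlinarith
      rw [add_mul]
      linarith)
    have hc : C ≤ C * (K₁ + 2) := le_mul_of_one_le_right hC.le (by linarith)
    exact ⟨fun a b => (h1 a b).trans (sqrt_mono r hc), fun a b c => (h2 a b c).trans (sqrt_mono r hc),
      fun a b => (h3 a b).trans (sqrt_mono r hc)⟩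

end Pool.Agent.Results.MP_b440f6_pr.SegmentsAllOrders
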