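import Pool.Agent.U508.ST.Up
import Pool.Agent.U508.ST.Lo

/-!
# Growth constants of the strips of the honeycomb lattice

Honeycomb lattice in brick-wall coordinates (as in the frozen statement): the vertex `(x, y)` is the
point `(√3/2 x, 3/2 y + ...)` of the plane, unit edges, and the edges between different rows `y` are
vertical. The strip of width `L` consists of the vertices with `0 ≤ x < L` (its Euclidean width is
`√3/2 (L - 1)`, and it is parallel to the vertical edges).

`c L n` is the number of the `n`-step self-avoiding walks in this strip, up to the vertical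
translations by two rows: the walks which start in the rows `0` and `1`. The growth constant of the
strip is `κ L = lim (c L n) ^ (1 / n)`, and `μ = √(2 + √2)` is the one of the lattice.

**Theorem.** `κ L ≤ μ 2 ^ (- 1 / (4 (L + 2)²))` for all `L`, and
`κ L ≥ μ exp (- L ^ (-1 - a / log log L))` for all large `L`, with a constant `a > 0`. So
`log 2 / (4 (L + 2)²) ≤ log (μ / κ L) ≤ L ^ (-1 - a / log log L)`.

The prediction is `log (μ / κ L) ≈ C L ^ (-1/ν) = C L ^ (-4/3)`: the strip feels the walls when the
walk has `L ^ (1/ν)` steps, `ν` the exponent of Q2. Without a rate, `κ L < μ` and `κ L → μ` are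
classical (Hammersley, Whittington; Alm, Janson).

Proof. Upper bound: a walk with `n` steps in the strip contains a bridge with height at least `c n / L`
(between even levels), which is as narrow as the strip; the total critical mass of such bridges is
exponentially small in `n / L²` by the parafermionic comparison of zigzag tubes (starting library,
`Pool.Agent.W818.TD`, used there for `MP_df1d0b_pr.TubeDecay`), and the two other pieces of the walk
cost a subexponential factor. Lower bound: the bridges of height `2 T` whose distance to the vertical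
line is at most `C T log T` have critical mass at least `1 / (8 T)` (starting library,
`Pool.Agent.W832.HR`: `MP_f5481b_pr.StripWidthLog`), and those with less than
`T ^ (1 + c / log log T)` steps are negligible (`Pool.Agent.Y981.QB`: `AlmostPowerLaw`); so there are
at least `μ ^ N / T ^ 5` of them with the same number `N ≥ T ^ (1 + c / log log T)` of steps, and they
can be concatenated at will, with mirror images when the walk leaves the middle of the strip.
-/

set_option autoImplicit false

namespace Pool.Agent.Results.MP_b440f6_pr.StripGrowthConstants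

open Filter Topology

/-- Adjacency in the honeycomb lattice (brick-wall model), as in the frozen statement. -/
def Nbr (p q : ℤ × ℤ) : Prop :=
  (p.2 = q.2 ∧ (p.1 - q.1 = 1 ∨ q.1 - p.1 = 1)) ∨
    (p.1 = q.1 ∧ ((q.2 = p.2 + 1 ∧ Even (p.1 + p.2)) ∨ (p.2 = q.2 + 1 ∧ Even (q.1 + q.2))))

/-- The vertical strip of width `L`. -/
def strip (L : ℕ) : Set (ℤ × ℤ) := {p | 0 ≤ p.1 ∧ p.1 < L}

/-- The `n`-step self-avoiding walks in the strip of width `L` which start in the rows `0` and `1`. -/
def walks (L n : ℕ) : Set (Fin (n + 1) → ℤ × ℤ) :=
  {ω | ((ω 0).2 = 0 ∨ (ω 0).2 = 1) ∧ Function.Injective ω ∧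
    (∀ i : Fin n, Nbr (ω i.castSucc) (ω i.succ)) ∧ ∀ i, ω i ∈ strip L}

/-- The number of the `n`-step self-avoiding walks in the strip of width `L`, up to vertical
translations. -/
noncomputable def c (L n : ℕ) : ℕ := (walks L n).ncard

/-- The connective constant of the honeycomb lattice. -/
noncomputable def μ : ℝ := Real.sqrt (2 + Real.sqrt 2)

/-- **Theorem.** The growth constants `κ L` of the strips exist, and
`log 2 / (4 (L + 2)²) ≤ log (μ / κ L) ≤ L ^ (-1 - a / log log L)`; the first inequality for all `L`,
the second one for all large `L`. -/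
theorem result : ∃ κ : ℕ → ℝ,
    (∀ L : ℕ, Tendsto (fun n : ℕ => (c L n : ℝ) ^ ((1 : ℝ) / n)) atTop (𝓝 (κ L))) ∧
    (∀ L : ℕ, κ L ≤ μ * (2 : ℝ) ^ (-(1 / (4 * ((L : ℝ) + 2) ^ 2)))) ∧
    ∃ a : ℝ, 0 < a ∧ ∀ᶠ L : ℕ in atTop,
      μ * Real.exp (-(L : ℝ) ^ (-1 - a / Real.log (Real.log L))) ≤ κ L := by
  choose κ h1 h2 h3 using Pool.Agent.U508.ST.exists_lim
  obtain ⟨a, ha, h4⟩ := Pool.Agent.U508.ST.kappa_lower
  refine ⟨κ, h2, fun L => Pool.Agent.U508.ST.kappa_le (h3 L), a, ha, ?_⟩
  filter_upwards [h4] with L hL
  exact hL (κ L) (h2 L)

end Pool.Agent.Results.MP_b440f6_pr.StripGrowthConstants
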